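import Pool.Agent.Helper50.VD.St

open MeasureTheory Set Filter Topology
open scoped ENNReal

noncomputable section

namespace VD.M_X1

/-- finite sets -/
structure Fs (A : Set (ℝ × ℝ)) : Prop where
  ms : MeasurableSet A
  sub : A ⊆ Om
  vol : volume A < ∞
  nu : VD.nu A < ∞

lemma Fs.mono {A C : Set (ℝ × ℝ)} (hA : Fs A) (hC : MeasurableSet C) (h : C ⊆ A) : Fs C :=
  ⟨hC, h.trans hA.sub, (measure_mono h).trans_lt hA.vol, (measure_mono h).trans_lt hA.nu⟩

lemma Fs.of_box {C : Set (ℝ × ℝ)} {n : ℝ} (hC : MeasurableSet C) (h : C ⊆ Box n) : Fs C :=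
  ⟨hC, h.trans (Box_subset_Om n), vol_lt_top h, nu_lt_top h⟩

lemma Fs.union {A C : Set (ℝ × ℝ)} (hA : Fs A) (hC : Fs C) : Fs (A ∪ C) :=
  ⟨hA.ms.union hC.ms, union_subset hA.sub hC.sub,
    (measure_union_le _ _).trans_lt (ENNReal.add_lt_top.2 ⟨hA.vol, hC.vol⟩),
    (measure_union_le _ _).trans_lt (ENNReal.add_lt_top.2 ⟨hA.nu, hC.nu⟩)⟩

lemma int_snd {E : Set (ℝ × ℝ)} (hE : Fs E) :
    IntegrableOn (fun z : ℝ × ℝ => z.2) E ∧ ∫ z in E, z.2 = (VD.nu E).toReal := by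
  have h0 : 0 ≤ᵐ[volume.restrict E] (fun z : ℝ × ℝ => z.2) := by
    filter_upwards [ae_restrict_mem hE.ms] with z hz
    exact le_of_lt (hE.sub hz)
  have h1 : ∫⁻ z in E, ENNReal.ofReal z.2 = VD.nu E := (nu_apply hE.ms).symm
  constructor
  · refine ⟨measurable_snd.aestronglyMeasurable, ?_⟩
    rw [hasFiniteIntegral_iff_ofReal h0, h1]
    exact hE.nu
  · rw [integral_eq_lintegral_of_nonneg_ae h0 measurable_snd.aestronglyMeasurable, h1]

lemma BG_int (hK9 : StK9) {A C : Set (ℝ × ℝ)} (hA : Fs A) (hC : Fs C) :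
    IntegrableOn (fun z : ℝ × ℝ => z.2 * phi C z) A :=
  (hK9.1 A C hA.ms hC.ms hA.sub hC.sub hA.vol hC.vol hA.nu hC.nu).1

lemma BG_symm (hK9 : StK9) {A C : Set (ℝ × ℝ)} (hA : Fs A) (hC : Fs C) : BG A C = BG C A :=
  (hK9.1 A C hA.ms hC.ms hA.sub hC.sub hA.vol hC.vol hA.nu hC.nu).2.1

lemma BG_union (hK9 : StK9) {A A' C : Set (ℝ × ℝ)} (hA : Fs A) (hA' : Fs A') (hC : Fs C)
    (hd : Disjoint A A') : BG (A ∪ A') C = BG A C + BG A' C := by
  unfold BG
  exact setIntegral_union hd hA'.ms (BG_int hK9 hA hC) (BG_int hK9 hA' hC)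

/-- exchange identity -/
lemma BG_exch (hK9 : StK9) {K R Q : Set (ℝ × ℝ)} (hK : Fs K) (hR : Fs R) (hQ : Fs Q)
    (h1 : Disjoint K R) (h2 : Disjoint K Q) :
    BG (K ∪ Q) (K ∪ Q) - BG (K ∪ R) (K ∪ R) =
      2 * (BG Q (K ∪ R) - BG R (K ∪ R)) + (BG Q Q - 2 * BG Q R + BG R R) := by
  have hKQ := hK.union hQ
  have hKR := hK.union hR
  have e1 : BG (K ∪ Q) (K ∪ Q) = BG K K + 2 * BG K Q + BG Q Q := by
    rw [BG_union hK9 hK hQ hKQ h2, BG_symm hK9 hK hKQ, BG_symm hK9 hQ hKQ,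
      BG_union hK9 hK hQ hK h2, BG_union hK9 hK hQ hQ h2, BG_symm hK9 hQ hK]
    ring
  have e2 : BG (K ∪ R) (K ∪ R) = BG K K + 2 * BG K R + BG R R := by
    rw [BG_union hK9 hK hR hKR h1, BG_symm hK9 hK hKR, BG_symm hK9 hR hKR,
      BG_union hK9 hK hR hK h1, BG_union hK9 hK hR hR h1, BG_symm hK9 hR hK]
    ring
  have e3 : BG Q (K ∪ R) = BG K Q + BG Q R := by
    rw [BG_symm hK9 hQ hKR, BG_union hK9 hK hR hQ h1, BG_symm hK9 hR hQ]
  have e4 : BG R (K ∪ R) = BG K R + BG R R := by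
    rw [BG_symm hK9 hR hKR, BG_union hK9 hK hR hR h1]
  rw [e1, e2, e3, e4]
  ring

lemma BG_lower (hK9 : StK9) {Q A : Set (ℝ × ℝ)} (hQ : Fs Q) (hA : Fs A) (b : ℝ)
    (h : ∀ z ∈ Q, b ≤ phi A z) : b * (VD.nu Q).toReal ≤ BG Q A := by
  rw [← (int_snd hQ).2, ← integral_const_mul]
  unfold BG
  refine setIntegral_mono_on ((int_snd hQ).1.const_mul b) (BG_int hK9 hQ hA) hQ.ms fun z hz => ?_
  have h2 : 0 < z.2 := hQ.sub hz
  nlinarith [h z hz]

lemma BG_upper (hK9 : StK9) {Q A : Set (ℝ × ℝ)} (hQ : Fs Q) (hA : Fs A) (b : ℝ)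
    (h : ∀ z ∈ Q, phi A z ≤ b) : BG Q A ≤ b * (VD.nu Q).toReal := by
  rw [← (int_snd hQ).2, ← integral_const_mul]
  unfold BG
  refine setIntegral_mono_on (BG_int hK9 hQ hA) ((int_snd hQ).1.const_mul b) hQ.ms fun z hz => ?_
  have h2 : 0 < z.2 := hQ.sub hz
  nlinarith [h z hz]

lemma nu_lower {Q : Set (ℝ × ℝ)} (hQ : MeasurableSet Q) (q : ℝ) (h : ∀ z ∈ Q, q ≤ z.2) :
    ENNReal.ofReal q * volume Q ≤ VD.nu Q := by
  rw [nu_apply hQ, ← setLIntegral_const]
  exact setLIntegral_mono' hQ fun z hz => ENNReal.ofReal_le_ofReal (h z hz)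

lemma nu_upper {Q : Set (ℝ × ℝ)} (hQ : MeasurableSet Q) (q : ℝ) (h : ∀ z ∈ Q, z.2 ≤ q) :
    VD.nu Q ≤ ENNReal.ofReal q * volume Q := by
  rw [nu_apply hQ, ← setLIntegral_const]
  exact setLIntegral_mono' hQ fun z hz => ENNReal.ofReal_le_ofReal (h z hz)

/-- a point of `Om` is in a large box -/
lemma exists_box {z : ℝ × ℝ} (hz : 0 < z.2) (e : ℝ) (he : 0 < e) :
    ∃ n : ℕ, z ∈ Box ((n : ℝ) + 1) ∧ 1 / ((n : ℝ) + 1) ≤ z.2 ∧ 1 / ((n : ℝ) + 1) < e := by
  obtain ⟨n, hn⟩ := exists_nat_gt (max (max |z.1| z.2) (max (1 / z.2) (1 / e)))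
  have h1 : |z.1| < n := lt_of_le_of_lt ((le_max_left _ _).trans (le_max_left _ _)) hn
  have h2 : z.2 < n := lt_of_le_of_lt ((le_max_right _ _).trans (le_max_left _ _)) hn
  have h3 : 1 / z.2 < n := lt_of_le_of_lt ((le_max_left _ _).trans (le_max_right _ _)) hn
  have h4 : 1 / e < n := lt_of_le_of_lt ((le_max_right _ _).trans (le_max_right _ _)) hn
  have hn0 : (0 : ℝ) < (n : ℝ) + 1 := by positivity
  refine ⟨n, ⟨by linarith, hz, by linarith⟩, ?_, ?_⟩
  · rw [div_le_iff₀ hn0]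
    rw [div_lt_iff₀ hz] at h3
    nlinarith
  · rw [div_lt_iff₀ hn0]
    rw [div_lt_iff₀ he] at h4
    nlinarith

lemma exists_pos {ι : Type} [Countable ι] (E : Set (ℝ × ℝ)) (F : ι → Set (ℝ × ℝ))
    (h : 0 < volume E) (hs : ∀ z ∈ E, ∃ n, z ∈ F n) : ∃ n, 0 < volume (F n) := by
  apply exists_measure_pos_of_not_measure_iUnion_null
  intro h0
  have : volume E ≤ volume (⋃ n, F n) := measure_mono fun z hz => mem_iUnion.2 (hs z hz)
  rw [h0] at this
  exact absurd this (not_le.2 h)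

/-- the exchange step -/
lemma main (hK2 : StK2) (hK9 : StK9) (hE7 : StE7) (hX0 : StX0)
    {D A : Set (ℝ × ℝ)} {c m : ℝ≥0∞} (hD : D ⊆ Om) (hc' : c ≠ ∞) (hm : m ≠ ∞)
    (hmx : IsMx D c m A)
    (hsl : volume A < m ∨ ∀ δ : ℝ, 0 < δ → 0 < volume (A ∩ {z | z.2 < δ}))
    (α β d q n1 n2 : ℝ) (hαβ : α < β) (hd : 0 < d) (hq : 0 < q)
    (P Q : Set (ℝ × ℝ)) (hPm : MeasurableSet P) (hQm : MeasurableSet Q)
    (hPA : P ⊆ A) (hPB : P ⊆ Box n1) (hPd : ∀ z ∈ P, d ≤ z.2) (hPφ : ∀ z ∈ P, phi A z < α)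
    (hQD : Q ⊆ D \ A) (hQB : Q ⊆ Box n2) (hQq : ∀ z ∈ Q, q ≤ z.2) (hQφ : ∀ z ∈ Q, β < phi A z)
    (hP0 : 0 < volume P) (hQ0 : 0 < volume Q) : False := by
  obtain ⟨⟨hAm, hAD, hAc, hAv⟩, hopt⟩ := hmx
  have hA : Fs A := ⟨hAm, hAD.trans hD, lt_of_le_of_lt hAv (lt_top_iff_ne_top.2 hm),
    by rw [hAc]; exact lt_top_iff_ne_top.2 hc'⟩
  have hPF : Fs P := Fs.of_box hPm hPB
  have hQF : Fs Q := Fs.of_box hQm hQB
  set C : ℝ := 4 * Real.sqrt (volume A).toReal with hC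
  have hC0 : 0 ≤ C := by positivity
  have hCb : ∀ z : ℝ × ℝ, 0 ≤ z.2 → phi A z ≤ C := fun z hz =>
    (hK2 A hA.ms hA.sub hA.vol z hz).2.2.1
  have hφ0 : ∀ z : ℝ × ℝ, 0 ≤ z.2 → 0 ≤ phi A z := fun z hz =>
    (hK2 A hA.ms hA.sub hA.vol z hz).2.1
  have hα : 0 < α := by
    obtain ⟨z, hz⟩ := nonempty_of_measure_ne_zero hP0.ne'
    exact lt_of_le_of_lt (hφ0 z (hd.le.trans (hPd z hz))) (hPφ z hz)
  -- the thickness δ
  set δ : ℝ := min (min d q) ((β - α) * q / (C + 1)) with hδ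
  have hδ0 : 0 < δ := by
    refine lt_min (lt_min hd hq) ?_
    have : 0 < β - α := by linarith
    positivity
  have hδd : δ ≤ d := (min_le_left _ _).trans (min_le_left _ _)
  have hδq : δ ≤ q := (min_le_left _ _).trans (min_le_right _ _)
  have hδC : C * δ < (β - α) * q := by
    have h1 : δ ≤ (β - α) * q / (C + 1) := min_le_right _ _
    rw [le_div_iff₀ (by linarith)] at h1
    nlinarith
  -- the compensating sets
  have hL : ∃ (η n3 : ℝ), 0 < η ∧ ∀ v : ℝ≥0∞, v ≤ ENNReal.ofReal η →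
      ∃ L ⊆ A ∩ {z | z.2 < δ} ∩ Box n3, MeasurableSet L ∧
        volume A + v ≤ m + volume L ∧ volume L ≤ v := by
    rcases hsl with h | h
    · refine ⟨(m - volume A).toReal, 0, ?_, ?_⟩
      · rw [ENNReal.toReal_pos_iff]
        exact ⟨tsub_pos_of_lt h, lt_of_le_of_lt tsub_le_self (lt_top_iff_ne_top.2 hm)⟩
      · intro v hv
        rw [ENNReal.ofReal_toReal (ne_top_of_le_ne_top hm tsub_le_self)] at hv
        refine ⟨∅, empty_subset _, MeasurableSet.empty, ?_, by simp⟩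
        rw [measure_empty, add_zero]
        calc volume A + v ≤ volume A + (m - volume A) := by gcongr
          _ = m := add_tsub_cancel_of_le h.le
    · obtain ⟨n, hn⟩ := exists_pos (A ∩ {z | z.2 < δ})
        (fun n : ℕ => A ∩ {z | z.2 < δ} ∩ Box ((n : ℝ) + 1)) (h δ hδ0) (by
          intro z hz
          obtain ⟨n, hn, -, -⟩ := exists_box (hA.sub hz.1) 1 one_pos
          exact ⟨n, hz, hn⟩)
      have hfin : volume (A ∩ {z | z.2 < δ} ∩ Box ((n : ℝ) + 1)) < ∞ :=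
        vol_lt_top inter_subset_right
      refine ⟨(volume (A ∩ {z | z.2 < δ} ∩ Box ((n : ℝ) + 1))).toReal, (n : ℝ) + 1, ?_, ?_⟩
      · rw [ENNReal.toReal_pos_iff]
        exact ⟨hn, hfin⟩
      · intro v hv
        rw [ENNReal.ofReal_toReal hfin.ne] at hv
        have hms : MeasurableSet (A ∩ {z : ℝ × ℝ | z.2 < δ} ∩ Box ((n : ℝ) + 1)) :=
          (hAm.inter (measurableSet_lt measurable_snd measurable_const)).inter
            (measurableSet_Box _)
        obtain ⟨L, hL1, hL2, hL3⟩ := hX0.1 _ v hms hv (ne_top_of_le_ne_top hfin.ne hv)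
        refine ⟨L, hL1, hL2, ?_, hL3.le⟩
        rw [hL3]
        gcongr
  obtain ⟨η, n3, hη, hL⟩ := hL
  have hnP : 0 < (VD.nu P).toReal := by
    rw [ENNReal.toReal_pos_iff]
    exact ⟨(nu_pos_iff hPm hPF.sub).2 hP0, hPF.nu⟩
  have hnQ : 0 < (VD.nu Q).toReal := by
    rw [ENNReal.toReal_pos_iff]
    exact ⟨(nu_pos_iff hQm hQF.sub).2 hQ0, hQF.nu⟩
  set t : ℝ := min (min (VD.nu P).toReal (VD.nu Q).toReal) (η * q) with ht
  have ht0 : 0 < t := lt_min (lt_min hnP hnQ) (mul_pos hη hq)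
  have htP : ENNReal.ofReal t ≤ VD.nu P :=
    ENNReal.ofReal_le_of_le_toReal ((min_le_left _ _).trans (min_le_left _ _))
  have htQ : ENNReal.ofReal t ≤ VD.nu Q :=
    ENNReal.ofReal_le_of_le_toReal ((min_le_left _ _).trans (min_le_right _ _))
  have htη : t / q ≤ η := by
    rw [div_le_iff₀ hq]
    exact min_le_right _ _
  obtain ⟨Q', hQ'Q, hQ'm, hQ'n⟩ := hX0.2 Q (ENNReal.ofReal t) hQm htQ ENNReal.ofReal_ne_top
  have hQ'F : Fs Q' := hQF.mono hQ'm hQ'Q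
  have hQ'v : volume Q' ≤ ENNReal.ofReal (t / q) := by
    have h1 := nu_lower hQ'm q fun z hz => hQq z (hQ'Q hz)
    rw [hQ'n] at h1
    rw [ENNReal.ofReal_div_of_pos hq, ENNReal.le_div_iff_mul_le
      (Or.inl (by simpa using hq)) (Or.inl ENNReal.ofReal_ne_top), mul_comm]
    exact h1
  obtain ⟨L, hLs, hLm, hLv, hLv'⟩ := hL (volume Q')
    (hQ'v.trans (ENNReal.ofReal_le_ofReal htη))
  have hLA : L ⊆ A := fun z hz => (hLs hz).1.1
  have hLF : Fs L := hA.mono hLm hLA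
  have hLn : VD.nu L ≤ ENNReal.ofReal (δ * (t / q)) := by
    calc VD.nu L ≤ ENNReal.ofReal δ * volume L := nu_upper hLm δ fun z hz => (hLs hz).1.2.le
      _ ≤ ENNReal.ofReal δ * ENNReal.ofReal (t / q) := by
          gcongr
          exact hLv'.trans hQ'v
      _ = ENNReal.ofReal (δ * (t / q)) := (ENNReal.ofReal_mul hδ0.le).symm
  have hδt : δ * (t / q) ≤ t := by
    rw [mul_div_assoc', div_le_iff₀ hq]
    nlinarith
  have hLt : VD.nu L ≤ ENNReal.ofReal t := hLn.trans (ENNReal.ofReal_le_ofReal hδt)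
  obtain ⟨P', hP'P, hP'm, hP'n⟩ := hX0.2 P (ENNReal.ofReal t - VD.nu L) hPm
    (tsub_le_self.trans htP) (ne_top_of_le_ne_top ENNReal.ofReal_ne_top tsub_le_self)
  have hP'F : Fs P' := hPF.mono hP'm hP'P
  have hPL : VD.nu P' + VD.nu L = ENNReal.ofReal t := by
    rw [hP'n, tsub_add_cancel_of_le hLt]
  have hdPL : Disjoint P' L := by
    rw [Set.disjoint_left]
    intro z hz hz'
    have h1 := hPd z (hP'P hz)
    have h2 : z.2 < δ := (hLs hz').1.2
    linarith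
  set R : Set (ℝ × ℝ) := P' ∪ L with hR
  have hRA : R ⊆ A := union_subset (hP'P.trans hPA) hLA
  have hRF : Fs R := hP'F.union hLF
  set K : Set (ℝ × ℝ) := A \ R with hK
  have hKF : Fs K := hA.mono (hAm.diff hRF.ms) diff_subset
  have hKR : Disjoint K R := disjoint_sdiff_left
  have hKRA : K ∪ R = A := diff_union_of_subset hRA
  have hKQ : Disjoint K Q' := by
    rw [Set.disjoint_left]
    intro z hz hz'
    exact (hQD (hQ'Q hz')).2 hz.1
  have hRn : VD.nu R = ENNReal.ofReal t := by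
    rw [hR, measure_union hdPL hLm, hPL]
  have hcls : Cls D c m (K ∪ Q') := by
    refine ⟨hKF.ms.union hQ'm, union_subset (diff_subset.trans hAD) fun z hz =>
      (hQD (hQ'Q hz)).1, ?_, ?_⟩
    · rw [measure_union hKQ hQ'm, hQ'n, ← hRn, ← measure_union hKR hRF.ms, hKRA, hAc]
    · rw [measure_union hKQ hQ'm]
      have h1 : volume A = volume K + volume R := by
        rw [← measure_union hKR hRF.ms, hKRA]
      have h2 : volume L ≤ volume R := measure_mono subset_union_right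
      have h3 : volume K + volume Q' + volume L ≤ m + volume L := by
        calc volume K + volume Q' + volume L ≤ volume K + volume Q' + volume R := by gcongr
          _ = volume A + volume Q' := by rw [h1]; ring
          _ ≤ m + volume L := hLv
      exact (ENNReal.add_le_add_iff_right hLF.vol.ne).1 h3
  have hle := hopt _ hcls
  have hex := BG_exch hK9 hKF hRF hQ'F hKR hKQ
  rw [hKRA] at hex
  have hRB : R ⊆ Box (max n1 n3) := by
    refine union_subset ((hP'P.trans hPB).trans (Box_mono (le_max_left _ _))) ?_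
    exact fun z hz => Box_mono (le_max_right _ _) (hLs hz).2
  have hE := (hE7 Q' R hQ'm hRF.ms hQ'F.sub hRF.sub ⟨n2, hQ'Q.trans hQB⟩ ⟨_, hRB⟩).1
  have hlow := BG_lower hK9 hQ'F hA β fun z hz => (hQφ z (hQ'Q hz)).le
  have hupP := BG_upper hK9 hP'F hA α fun z hz => (hPφ z (hP'P hz)).le
  have hupL := BG_upper hK9 hLF hA C fun z hz => hCb z (le_of_lt (hLF.sub hz))
  have hRU : BG R A = BG P' A + BG L A := BG_union hK9 hP'F hLF hA hdPL
  rw [hQ'n, ENNReal.toReal_ofReal ht0.le] at hlow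
  have hsum : (VD.nu P').toReal + (VD.nu L).toReal = t := by
    rw [← ENNReal.toReal_add hP'F.nu.ne hLF.nu.ne, hPL, ENNReal.toReal_ofReal ht0.le]
  have hL0 : 0 ≤ (VD.nu L).toReal := ENNReal.toReal_nonneg
  have hLr : (VD.nu L).toReal ≤ δ * (t / q) :=
    ENNReal.toReal_le_of_le_ofReal (by positivity) hLn
  have h5 : C * (VD.nu L).toReal ≤ C * (δ * (t / q)) := mul_le_mul_of_nonneg_left hLr hC0
  have h6 : C * (δ * (t / q)) < (β - α) * t := by
    have : C * (δ * (t / q)) = C * δ * (t / q) := by ring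
    rw [this]
    have h7 : (β - α) * t = (β - α) * q * (t / q) := by field_simp
    rw [h7]
    exact mul_lt_mul_of_pos_right hδC (by positivity)
  have h8 : α * (VD.nu P').toReal ≤ α * t := by
    refine mul_le_mul_of_nonneg_left ?_ hα.le
    linarith
  nlinarith

end VD.M_X1

namespace VD

open M_X1 in
/-- exchange argument (Lagrange multiplier) for maximisers -/
theorem mX1 (hK0 : StK0) (hK1 : StK1) (hK2 : StK2) (hK9 : StK9) (hE7 : StE7) (hX0 : StX0) : StX1 := by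
  intro D A c m hDm hD hc hc' hm hmx hsl hDA
  obtain ⟨⟨hAm, hAD, hAc, hAv⟩, hopt⟩ := id hmx
  have hA : Fs A := ⟨hAm, hAD.trans hD, lt_of_le_of_lt hAv (lt_top_iff_ne_top.2 hm),
    by rw [hAc]; exact lt_top_iff_ne_top.2 hc'⟩
  have hφm : Measurable (phi A) := hK0.2.1 A hAm
  have hvA : 0 < volume A := by
    rw [← nu_pos_iff hAm hA.sub, hAc]
    exact pos_iff_ne_zero.2 hc
  have hK2A := fun z hz => hK2 A hA.ms hA.sub hA.vol z hz
  set S : Set ℝ := {w | 0 < volume ((D \ A) ∩ {z | w < phi A z})} with hS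
  have hSb : BddAbove S := by
    refine ⟨4 * Real.sqrt (volume A).toReal, fun w hw => ?_⟩
    obtain ⟨z, hz⟩ := nonempty_of_measure_ne_zero (ne_of_gt hw)
    have h1 : w < phi A z := hz.2
    exact h1.le.trans (hK2A z (le_of_lt (hD hz.1.1))).2.2.1
  have hpos : ∃ w ∈ S, 0 < w := by
    obtain ⟨n, hn⟩ := exists_pos (D \ A)
      (fun n : ℕ => (D \ A) ∩ {z | 1 / ((n : ℝ) + 1) < phi A z}) hDA (by
        intro z hz
        have h1 := (hK2A z (le_of_lt (hD hz.1))).2.2.2 hvA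
        obtain ⟨n, hn⟩ := exists_nat_one_div_lt h1
        exact ⟨n, hz, hn⟩)
    exact ⟨_, hn, by positivity⟩
  obtain ⟨w0, hw0, hw0'⟩ := hpos
  have hSne : S.Nonempty := ⟨w0, hw0⟩
  set W : ℝ := sSup S with hW
  have hW0 : 0 < W := lt_of_lt_of_le hw0' (le_csSup hSb hw0)
  refine ⟨W, hW0, ?_, ?_⟩
  · by_contra hcon
    rw [ae_iff] at hcon
    have hpA : 0 < volume {z | ¬ (z ∈ A → W ≤ phi A z)} := pos_iff_ne_zero.2 hcon
    obtain ⟨n, hn⟩ := exists_pos _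
      (fun n : ℕ => A ∩ {z | phi A z < W - 1 / ((n : ℝ) + 1)} ∩ {z | 1 / ((n : ℝ) + 1) ≤ z.2} ∩
        Box ((n : ℝ) + 1)) hpA (by
        intro z hz
        simp only [mem_setOf_eq, Classical.not_imp, not_le] at hz
        obtain ⟨n, h1, h2, h3⟩ := exists_box (hA.sub hz.1) (W - phi A z) (by linarith [hz.2])
        exact ⟨n, ⟨⟨hz.1, by simp only [mem_setOf_eq]; linarith⟩, h2⟩, h1⟩)
    set α : ℝ := W - 1 / ((n : ℝ) + 1) with hα
    have hαW : α < W := by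
      have : (0 : ℝ) < 1 / ((n : ℝ) + 1) := by positivity
      linarith
    have hβW : (α + W) / 2 < W := by linarith
    obtain ⟨w, hw, hwβ⟩ := exists_lt_of_lt_csSup hSne hβW
    obtain ⟨k, hk⟩ := exists_pos _
      (fun n : ℕ => (D \ A) ∩ {z | (α + W) / 2 < phi A z} ∩ {z | 1 / ((n : ℝ) + 1) ≤ z.2} ∩
        Box ((n : ℝ) + 1)) (show 0 < volume ((D \ A) ∩ {z | w < phi A z}) from hw) (by
        intro z hz
        obtain ⟨n, h1, h2, -⟩ := exists_box (hD hz.1.1) 1 one_pos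
        have h3 : w < phi A z := hz.2
        exact ⟨n, ⟨⟨hz.1, by simp only [mem_setOf_eq]; linarith⟩, h2⟩, h1⟩)
    have hm1 : MeasurableSet (A ∩ {z | phi A z < α} ∩ {z : ℝ × ℝ | 1 / ((n : ℝ) + 1) ≤ z.2} ∩
        Box ((n : ℝ) + 1)) :=
      ((hAm.inter (measurableSet_lt hφm measurable_const)).inter
        (measurableSet_le measurable_const measurable_snd)).inter (measurableSet_Box _)
    have hm2 : MeasurableSet ((D \ A) ∩ {z | (α + W) / 2 < phi A z} ∩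
        {z : ℝ × ℝ | 1 / ((k : ℝ) + 1) ≤ z.2} ∩ Box ((k : ℝ) + 1)) :=
      (((hDm.diff hAm).inter (measurableSet_lt measurable_const hφm)).inter
        (measurableSet_le measurable_const measurable_snd)).inter (measurableSet_Box _)
    exact M_X1.main hK2 hK9 hE7 hX0 hD hc' hm hmx hsl α ((α + W) / 2) (1 / ((n : ℝ) + 1))
      (1 / ((k : ℝ) + 1)) ((n : ℝ) + 1) ((k : ℝ) + 1) (by linarith) (by positivity) (by positivity)
      _ _ hm1 hm2 (fun z hz => hz.1.1.1) (fun z hz => hz.2) (fun z hz => hz.1.2)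
      (fun z hz => hz.1.1.2) (fun z hz => hz.1.1.1) (fun z hz => hz.2) (fun z hz => hz.1.2)
      (fun z hz => hz.1.1.2) hn hk
  · by_contra hcon
    rw [ae_iff] at hcon
    have hpA : 0 < volume {z | ¬ (z ∈ D → z ∉ A → phi A z ≤ W)} := pos_iff_ne_zero.2 hcon
    obtain ⟨n, hn⟩ := exists_pos _
      (fun n : ℕ => (D \ A) ∩ {z | W + 1 / ((n : ℝ) + 1) < phi A z}) hpA (by
        intro z hz
        simp only [mem_setOf_eq, Classical.not_imp, not_le] at hz
        obtain ⟨n, hn⟩ := exists_nat_one_div_lt (show 0 < phi A z - W by linarith [hz.2.2])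
        exact ⟨n, ⟨hz.1, hz.2.1⟩, by simp only [mem_setOf_eq]; linarith⟩)
    have h1 : W + 1 / ((n : ℝ) + 1) ≤ W := le_csSup hSb hn
    have h2 : (0 : ℝ) < 1 / ((n : ℝ) + 1) := by positivity
    linarith

end VD
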